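import Mathlib

namespace Pool.Agent.Results.MP_388f8c_an.Gong

open Set

/-- a pointed convex cone -/
def IsCone {X : Type} [AddCommGroup X] [Module ℝ X] (C : Set X) : Prop :=
  C.Nonempty ∧ (∀ x ∈ C, ∀ y ∈ C, x + y ∈ C) ∧ (∀ t : ℝ, 0 ≤ t → ∀ x ∈ C, t • x ∈ C) ∧
    C ∩ (-C) = {0}

/-- a base of a cone -/
def IsBase {X : Type} [NormedAddCommGroup X] [NormedSpace ℝ X] (C B : Set X) : Prop :=
  B.Nonempty ∧ Convex ℝ B ∧ B ⊆ C ∧ (0 : X) ∉ closure B ∧
    ∀ c ∈ C, c ≠ 0 → ∃! q : ℝ × X, 0 < q.1 ∧ q.2 ∈ B ∧ c = q.1 • q.2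

/-- condition (*): zero is not in the weak closure of `C \ ε B_X` -/
def Star {X : Type} [NormedAddCommGroup X] [NormedSpace ℝ X] (C : Set X) : Prop :=
  ∀ ε : ℝ, 0 < ε → ε < 1 →
    toWeakSpace ℝ X 0 ∉ closure (toWeakSpace ℝ X '' (C \ Metric.closedBall 0 ε))

/-- finitely supported sequences -/
def E : Type := ℕ →₀ ℝ

noncomputable instance : AddCommGroup E := inferInstanceAs (AddCommGroup (ℕ →₀ ℝ))
noncomputable instance : Module ℝ E := inferInstanceAs (Module ℝ (ℕ →₀ ℝ))

noncomputable def co (k : ℕ) : E →ₗ[ℝ] ℝ := Finsupp.lapply k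
noncomputable def aa : E →ₗ[ℝ] ℝ := Finsupp.linearCombination ℝ (fun k : ℕ => (-1 : ℝ) ^ k)
noncomputable def bb : E →ₗ[ℝ] ℝ := Finsupp.linearCombination ℝ (fun k : ℕ => 1 / ((k : ℝ) + 1))
noncomputable def nn (x : E) : ℝ := ∑' k, |co k x| / ((k : ℝ) + 1)

lemma summ (x : E) : Summable fun k => |co k x| / ((k : ℝ) + 1) := by
  apply summable_of_ne_finset_zero (s := Finsupp.support (x : ℕ →₀ ℝ))
  intro k hk
  have : co k x = 0 := Finsupp.notMem_support_iff.1 hk
  simp [this]

lemma nn_nonneg (x : E) : 0 ≤ nn x := tsum_nonneg fun k => by positivity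

lemma co_le (k : ℕ) (x : E) : |co k x| / ((k : ℝ) + 1) ≤ nn x :=
  (summ x).le_tsum k fun j _ => by positivity

lemma nn_eq (x : E) : nn x = ∑ k ∈ Finsupp.support (x : ℕ →₀ ℝ), |co k x| / ((k : ℝ) + 1) := by
  apply tsum_eq_sum
  intro k hk
  have : co k x = 0 := Finsupp.notMem_support_iff.1 hk
  simp [this]

lemma bb_eq (x : E) : bb x = ∑ k ∈ Finsupp.support (x : ℕ →₀ ℝ), co k x / ((k : ℝ) + 1) := by
  unfold bb
  erw [Finsupp.linearCombination_apply]
  unfold Finsupp.sum
  apply Finset.sum_congr rfl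
  intro k _
  exact mul_one_div _ _

lemma ext0 (x : E) (h : ∀ k, co k x = 0) : x = 0 := Finsupp.ext h

noncomputable instance : NormedAddCommGroup E :=
  AddGroupNorm.toNormedAddCommGroup
    { toFun := fun x => |aa x| + nn x
      map_zero' := by simp [nn]
      add_le' := fun x y => by
        have h1 : nn (x + y) ≤ nn x + nn y := by
          unfold nn
          rw [← (summ x).tsum_add (summ y)]
          apply (summ _).tsum_le_tsum _ ((summ x).add (summ y))
          intro k
          rw [← add_div, map_add]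
          gcongr
          exact abs_add_le _ _
        have := abs_add_le (aa x) (aa y)
        rw [map_add]; linarith
      neg' := fun x => by simp [nn]
      eq_zero_of_map_eq_zero' := fun x h => by
        apply ext0
        intro k
        have h1 := co_le k x
        have h2 := abs_nonneg (aa x)
        have h3 : |co k x| / ((k : ℝ) + 1) ≤ 0 := by linarith
        have h4 : (0 : ℝ) < (k : ℝ) + 1 := by positivity
        rw [div_le_iff₀ h4, zero_mul] at h3
        exact abs_nonpos_iff.1 h3 }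

lemma norm_def (x : E) : ‖x‖ = |aa x| + nn x := rfl

noncomputable instance : NormedSpace ℝ E where
  norm_smul_le c x := by
    rw [norm_def, norm_def, map_smul, smul_eq_mul, abs_mul, Real.norm_eq_abs, mul_add]
    unfold nn
    rw [← tsum_mul_left]
    apply le_of_eq
    congr 2
    ext k
    rw [map_smul, smul_eq_mul, abs_mul, mul_div_assoc]

noncomputable def coL (k : ℕ) : E →L[ℝ] ℝ := (co k).mkContinuous ((k : ℝ) + 1) fun x => by
  have h1 := co_le k x
  have h4 : (0 : ℝ) < (k : ℝ) + 1 := by positivity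
  rw [div_le_iff₀ h4] at h1
  rw [norm_def, Real.norm_eq_abs]
  have := abs_nonneg (aa x)
  nlinarith

noncomputable def aL : E →L[ℝ] ℝ := aa.mkContinuous 1 fun x => by
  rw [norm_def, Real.norm_eq_abs]; linarith [nn_nonneg x]

noncomputable def bL : E →L[ℝ] ℝ := bb.mkContinuous 1 fun x => by
  rw [norm_def, Real.norm_eq_abs, bb_eq, nn_eq]
  have := abs_nonneg (aa x)
  have h := Finset.abs_sum_le_sum_abs (fun k => co k x / ((k : ℝ) + 1))
    (Finsupp.support (x : ℕ →₀ ℝ))
  have e : ∀ k : ℕ, |co k x / ((k : ℝ) + 1)| = |co k x| / ((k : ℝ) + 1) := fun k => by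
    rw [abs_div, abs_of_pos (by positivity : (0 : ℝ) < (k : ℝ) + 1)]
  simp only [e] at h
  linarith

def CC : Set E := {x | ∀ k, 0 ≤ co k x}

noncomputable def e (k : ℕ) : E := Finsupp.single k 1

lemma co_e (k j : ℕ) : co j (e k) = if k = j then 1 else 0 := Finsupp.single_apply

lemma aa_e (k : ℕ) : aa (e k) = (-1) ^ k := by
  unfold aa e; erw [Finsupp.linearCombination_single]; simp

lemma nn_e (k : ℕ) : nn (e k) = 1 / ((k : ℝ) + 1) := by
  unfold nn
  rw [tsum_eq_single k]
  · simp [co_e]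
  · intro j hj; simp [co_e, Ne.symm hj]

lemma e_mem (k : ℕ) : e k ∈ CC := fun j => by rw [co_e]; split_ifs <;> norm_num

lemma norm_e (k : ℕ) : 1 ≤ ‖e k‖ := by
  rw [norm_def, aa_e]; simp [nn_nonneg]

lemma norm_pair (k : ℕ) : ‖e k + e (k + 1)‖ ≤ 2 / ((k : ℝ) + 1) := by
  rw [norm_def, map_add, aa_e, aa_e, pow_succ]
  have h1 : nn (e k + e (k + 1)) = nn (e k) + nn (e (k + 1)) := by
    unfold nn
    rw [← (summ _).tsum_add (summ _)]
    congr 1; ext j
    rw [map_add, abs_of_nonneg (add_nonneg (e_mem _ j) (e_mem _ j)), abs_of_nonneg (e_mem _ j),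
      abs_of_nonneg (e_mem _ j), add_div]
  rw [h1, nn_e, nn_e]
  have : 1 / (((k + 1 : ℕ) : ℝ) + 1) ≤ 1 / ((k : ℝ) + 1) := by
    gcongr; push_cast; linarith
  have e2 : 2 / ((k : ℝ) + 1) = 1 / ((k : ℝ) + 1) + 1 / ((k : ℝ) + 1) := by ring
  simp only [mul_neg, mul_one, add_neg_cancel, abs_zero]
  linarith

theorem result : ∃ (X : Type) (_ : NormedAddCommGroup X) (_ : NormedSpace ℝ X) (C : Set X),
    IsCone C ∧ IsClosed C ∧ Star C ∧ ¬ ∃ B, IsBase C B ∧ Bornology.IsBounded B := by
  refine ⟨E, inferInstance, inferInstance, CC, ⟨⟨0, fun k => by simp⟩, ?_, ?_, ?_⟩, ?_, ?_, ?_⟩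
  · intro x hx y hy k; rw [map_add]; exact add_nonneg (hx k) (hy k)
  · intro t ht x hx k; rw [map_smul]; exact mul_nonneg ht (hx k)
  · ext x
    simp only [mem_inter_iff, mem_neg, mem_singleton_iff]
    constructor
    · rintro ⟨h1, h2⟩
      apply ext0
      intro k
      have := h2 k
      rw [map_neg] at this
      linarith [h1 k]
    · rintro rfl; exact ⟨fun k => by simp, fun k => by simp⟩
  · have : CC = ⋂ k, {x | 0 ≤ coL k x} := by ext x; simp [CC, coL]
    rw [this]
    exact isClosed_iInter fun k => isClosed_le continuous_const (coL k).continuous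
  · intro ε h0 _ hcl
    have ca : Continuous fun x : WeakSpace ℝ E => aL ((toWeakSpace ℝ E).symm x) :=
      WeakBilin.eval_continuous (topDualPairing ℝ E).flip aL
    have cb : Continuous fun x : WeakSpace ℝ E => bL ((toWeakSpace ℝ E).symm x) :=
      WeakBilin.eval_continuous (topDualPairing ℝ E).flip bL
    have hc : IsClosed {x : WeakSpace ℝ E |
        ε ≤ |aL ((toWeakSpace ℝ E).symm x)| + bL ((toWeakSpace ℝ E).symm x)} :=
      isClosed_le continuous_const (ca.abs.add cb)
    have := closure_minimal (s := toWeakSpace ℝ E '' (CC \ Metric.closedBall 0 ε)) ?_ hc hcl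
    · simp at this; linarith
    · rintro _ ⟨x, ⟨hx, hx2⟩, rfl⟩
      simp only [Metric.mem_closedBall, dist_zero_right, not_le] at hx2
      have : bb x = nn x := by
        rw [bb_eq, nn_eq]
        exact Finset.sum_congr rfl fun k _ => by rw [abs_of_nonneg (hx k)]
      rw [norm_def, ← this] at hx2
      simpa [aL, bL] using hx2.le
  · rintro ⟨B, ⟨-, hconv, -, hcl, hB⟩, hbd⟩
    obtain ⟨M, hM0, hM⟩ := hbd.exists_pos_norm_le
    have ex : ∀ k, ∃ t : ℝ, ∃ b ∈ B, 1 / M ≤ t ∧ e k = t • b := by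
      intro k
      have h1 := norm_e k
      obtain ⟨⟨t, b⟩, ⟨ht, hb, he⟩, -⟩ := hB (e k) (e_mem k) (by
        intro h; rw [h, norm_zero] at h1; linarith)
      refine ⟨t, b, hb, ?_, he⟩
      simp only at ht hb he
      rw [he, norm_smul, Real.norm_eq_abs, abs_of_pos ht] at h1
      rw [div_le_iff₀ hM0]
      have := hM b hb
      nlinarith
    apply hcl
    rw [Metric.mem_closure_iff]
    intro η hη
    obtain ⟨k, hk⟩ := exists_nat_gt (M / η)
    obtain ⟨s, a, ha, hs, hea⟩ := ex k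
    obtain ⟨t, b, hb, ht, heb⟩ := ex (k + 1)
    have hM' : 0 < 1 / M := by positivity
    have hst : 0 < s + t := by linarith
    refine ⟨(s / (s + t)) • a + (t / (s + t)) • b, hconv ha hb (div_nonneg (by linarith) hst.le)
      (div_nonneg (by linarith) hst.le) (by field_simp), ?_⟩
    have e1 : (s / (s + t)) • a + (t / (s + t)) • b = (1 / (s + t)) • (e k + e (k + 1)) := by
      rw [hea, heb, smul_add, smul_smul, smul_smul]; congr 2 <;> ring
    rw [dist_comm, dist_zero_right, e1, norm_smul, Real.norm_eq_abs, abs_of_pos (by positivity)]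
    have h2 := norm_pair k
    have h3 : 1 / (s + t) ≤ M / 2 := by
      rw [div_le_div_iff₀ hst (by norm_num)]
      rw [div_le_iff₀ hM0] at hs ht
      nlinarith
    have h4 : (0 : ℝ) < (k : ℝ) + 1 := by positivity
    calc 1 / (s + t) * ‖e k + e (k + 1)‖ ≤ M / 2 * (2 / ((k : ℝ) + 1)) := by gcongr
      _ = M / ((k : ℝ) + 1) := by field_simp
      _ < η := by
        rw [div_lt_iff₀ h4]; rw [div_lt_iff₀ hη] at hk; nlinarith

end Pool.Agent.Results.MP_388f8c_an.Gong
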